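import Pool.Agent.TH689.QXDomAsym
import Pool.Agent.TH689.QXUpper

/-!
# Convex programs for approximating dominating sets

The definitions used in the statement (in `Pool/Agent/TH689/QXDomDefs.lean`,
`Pool/Agent/TH689/QXDomAsym.lean`, `Pool/Agent/TH689/QXDefs.lean` and
`Pool/Agent/TH689/GXDefs.lean`):

* `graph y`: the graph with `n + T` vertices in which the first `n` vertices are a clique, the other
  `T` vertices are independent, and the `t`-th of them is adjacent to the `i` with `y t i = true`.
* `DomLe G W`: the graph `G` has a dominating set with at most `W` members.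
* `Sets n k`: the sets of `k` of the first `n` vertices; `Misses c S`: no member of `S` is adjacent
  to a vertex with the neighbourhood `c`. If `Misses (y t) S` holds for no `t`, then `S` is a
  dominating set of `graph y`.
* `few n`: the number `2 ^ W * (W + 1) * (Nat.log 2 n + 1)` where `W = Nat.log 2 n / 100`.
* `Scheme X 𝒞 a s r D`: the schemes of mixed-integer convex programming relaxations of the problem
  to find a member of `X` which violates none of the given constraints, with `a` binary variables,
  `s` convex constraints of dimension `D` which are common to all instances and `r` such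
  constraints for every member of `𝒞`, here for every neighbourhood. A constraint says that the
  value of an affine map to `ℝ ^ D` lies in an arbitrary convex set. There are any number of real
  variables and linear equations. Every member of `X` has a vector, about which nothing is assumed.
* `P.CorrectAt Misses S`: the vector of `S` satisfies the common constraints, the constraints of
  the neighbourhoods which meet `S`, and its binary variables are `0` or `1`; so it is a solution of
  the relaxation of every graph in which `S` is a dominating set.
* `Rejects P Misses y δ`: the relaxation claims, with an error `δ`, that `graph y` has no dominating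
  set with `k` members.
* `P.correctRate Misses`: the fraction of the sets `S` at which `P` is correct.
-/

set_option autoImplicit false

namespace Pool.Agent.Results.MP_9ec118_lc.ConvexProgramsForDomination

open Pool.Agent.TH689.GX Pool.Agent.TH689.QX

open Classical in
/-- For every `k ≥ 1` and all large `n`, let `T = few n ≤ n ^ (1 / 50)` and
`W = Nat.log 2 n / 100`. Let `P ω` be a randomized scheme of mixed-integer convex programming
relaxations for dominating sets with `k` members, where `ω` has the probability `p ω`, which is
correct at every set with the probability `2 / 3` and which rejects every graph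
`graph y` with `T` neighbourhoods and no dominating set of at most `W` vertices with the probability
`2 / 3`, with an error `δ ≥ 1 / (2 * T)`. If `2 ^ a * (s + (r + 1) * T + 1) * (D + 2) ≤ M`, then
`M ≥ n ^ (k - 1 / 10)`.

Conversely, for every `S ≤ n.choose k` there is a scheme with `S` linear inequalities and one
more for every neighbourhood, which is correct at a fraction `S / n.choose k` of the sets with
`k` members and rejects every graph without a dominating set of at most `k` vertices, with every
error `δ < 1 / T`. -/
theorem result (k : ℕ) (hk : 1 ≤ k) :
    (∃ n₀ : ℕ, ∀ n ≥ n₀,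
      (few n : ℝ) ≤ (n : ℝ) ^ ((1 : ℝ) / 50) ∧
      ∀ δ : ℝ, 1 / (2 * few n) ≤ δ → δ < 1 →
      ∀ (Ω : Type) [Fintype Ω] (p : Ω → ℝ), (∀ ω, 0 ≤ p ω) → ∑ ω, p ω = 1 →
      ∀ (a s r D : Ω → ℕ) (M : ℝ),
        (∀ ω, (2 : ℝ) ^ a ω * (s ω + (r ω + 1) * few n + 1) * (D ω + 2) ≤ M) →
      ∀ P : ∀ ω, Scheme (Sets n k) (Fin n → Bool) (a ω) (s ω) (r ω) (D ω),
        (∀ S, ∑ ω with ¬ (P ω).CorrectAt Misses S, p ω ≤ 1 / 3) →
        (∀ y : Fin (few n) → Fin n → Bool, ¬ DomLe (graph y) (Nat.log 2 n / 100) →
          ∑ ω with ¬ Rejects (P ω) Misses y δ, p ω ≤ 1 / 3) →
        (n : ℝ) ^ ((k : ℝ) - 1 / 10) ≤ M) ∧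
    ∀ n : ℕ, k ≤ n → ∀ S ≤ n.choose k, ∃ P : Scheme (Sets n k) (Fin n → Bool) 0 S 1 1,
      P.correctRate Misses = (S : ℝ) / n.choose k ∧
      ∀ (T : ℕ) (δ : ℝ), 0 ≤ δ → T * δ < 1 → ∀ y : Fin T → Fin n → Bool,
        ¬ DomLe (graph y) k → Rejects P Misses y δ := by
  refine ⟨dom_asym k hk, ?_⟩
  · intro n hkn S hS
    have hcard : Fintype.card (Sets n k) = n.choose k := by
      rw [Fintype.card_finset_len, Fintype.card_fin]
    have hne : Nonempty (Sets n k) := by
      rw [← Fintype.card_pos_iff, hcard]
      exact Nat.choose_pos hkn
    obtain ⟨P, h1, h2⟩ := learn_upper (Misses (n := n) (k := k)) (1 - (1 / 2) ^ k)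
      (fun x => by
        have h3 := card_meets x
        rw [Set.ncard_eq_toFinset_card']
        refine le_of_eq (Eq.trans ?_ h3)
        congr 2
        ext c
        simp) S (by rw [hcard]; exact hS)
    refine ⟨P, ?_, ?_⟩
    · rw [h1, hcard]
    · intro T δ hδ0 hδ y hy
      apply (h2 T δ hδ0 hδ).1
      intro x
      by_contra hcon
      push Not at hcon
      apply hy
      refine ⟨x.1.map Function.Embedding.inl, ?_, dominates_of hk y x hcon⟩
      rw [Finset.card_map, x.2]

end Pool.Agent.Results.MP_9ec118_lc.ConvexProgramsForDomination
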